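import Pool.Agent.Helper75.KS.GoalsX

/-!
# The points of the exponential model of a poset fill the line
-/

namespace Pool.Agent.Helper8.KS

open MeasureTheory Filter Topology Finset
open Pool.Agent.Helper44.KS Pool.Agent.Helper75.KS
open Pool.Agent.Helper89.GP (LX po Ex Pr hh Ch)

/-- FLM. -/
theorem flm (hE : ExmStmt) (hL : LlnStmt) : FlmStmt := by
  intro G ε η hG hGc hε hη
  obtain ⟨S0, K0, _, hK0, hLL⟩ := hL G ε η hG hGc hε hη
  refine ⟨S0, K0, fun n R x0 c K hStd hK hS => ?_⟩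
  have hd : 0 ≤ dev R x0 := zero_le_one.trans hStd.one
  have hKK : K0 * dev R x0 ≤ K * dev R x0 := mul_le_mul_of_nonneg_right hK hd
  have hmeas : MeasurableSet {v : Fin n → ℝ | ε < |(∑ p, G ((v p - v x0) / dev R x0)) /
      dev R x0 - ∫ y, G y|} := by
    apply measurableSet_lt measurable_const
    have hcont : Continuous fun v : Fin n → ℝ => |(∑ p, G ((v p - v x0) / dev R x0)) /
      dev R x0 - ∫ y, G y| := by fun_prop
    exact hcont.measurable
  rw [(hE n R hStd.ne).2 _ hmeas]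
  have hne : (0 : ℝ) < (LX R).card := Pool.Agent.Helper89.GP.card_pos_real hStd.ne
  have hle : ∀ σ ∈ LX R, (P0 n).real {x | (fun a => x (σ a)) ∈ {v : Fin n → ℝ |
      ε < |(∑ p, G ((v p - v x0) / dev R x0)) / dev R x0 - ∫ y, G y|}} ≤ η := by
    intro σ hσ
    have h1 := hLL (dev R x0) n (σ x0) hS (hKK.trans (hStd.lo σ hσ)) (by
      have h2 := hStd.hi σ hσ
      have h3 : ((σ x0 : ℕ) : ℝ) + K0 * dev R x0 ≤ (po σ x0 : ℝ) + K * dev R x0 := by
        have : (po σ x0 : ℝ) = ((σ x0 : ℕ) : ℝ) := rfl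
        linarith
      exact h3.trans h2)
    have h4 : {x : Fin n → ℝ | (fun a => x (σ a)) ∈ {v : Fin n → ℝ |
        ε < |(∑ p, G ((v p - v x0) / dev R x0)) / dev R x0 - ∫ y, G y|}} =
        {x | ε < |(∑ k : Fin n, G ((x k - x (σ x0)) / dev R x0)) / dev R x0 - ∫ y, G y|} := by
      ext x
      have h5 : ∑ p, G ((x (σ p) - x (σ x0)) / dev R x0) =
          ∑ k : Fin n, G ((x k - x (σ x0)) / dev R x0) :=
        Equiv.sum_comp σ fun k => G ((x k - x (σ x0)) / dev R x0)
      simp only [Set.mem_ofPred_eq, h5]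
    rw [h4]
    exact h1
  refine (Pool.Agent.Helper89.GP.Ex_mono hle).trans ?_
  unfold Ex
  rw [sum_const, nsmul_eq_mul, mul_comm, mul_div_assoc, div_self hne.ne', mul_one]

end Pool.Agent.Helper8.KS
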