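import Pool.Agent.Helper42.KS.Goals

/-!
Elementary bounds for the oscillatory integral `VV`.
-/

set_option autoImplicit false

namespace Pool.Agent.Helper42.KS.PkV2

open MeasureTheory

theorem norm_ee (t : ℝ) : ‖ee t‖ = 1 := by
  unfold ee
  rw [Complex.norm_exp_ofReal_mul_I]

theorem ee_add (s t : ℝ) : ee (s + t) = ee s * ee t := by
  unfold ee
  rw [← Complex.exp_add]
  congr 1
  push_cast
  ring

theorem norm_ee_sub_one (t : ℝ) : ‖ee t - 1‖ ≤ 2 * Real.pi * |t| := by
  unfold ee
  have h := Real.norm_exp_I_mul_ofReal_sub_one_le (x := 2 * Real.pi * t)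
  rw [mul_comm] at h
  refine h.trans ?_
  rw [Real.norm_eq_abs, abs_mul, abs_of_pos Real.two_pi_pos]

theorem continuous_ee : Continuous ee := by
  unfold ee
  fun_prop

theorem hasDerivAt_F (k : ℕ) (B Θ s : ℝ) :
    HasDerivAt (fun s : ℝ => ee (B * s ^ k + Θ * s))
      ((2 * Real.pi * Complex.I) * ((k * B * s ^ (k - 1) : ℝ) * ee (B * s ^ k + Θ * s)) +
        (2 * Real.pi * Complex.I * Θ) * ee (B * s ^ k + Θ * s)) s := by
  have h1 : HasDerivAt (fun s : ℝ => B * s ^ k + Θ * s) (B * (k * s ^ (k - 1)) + Θ * 1) s :=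
    ((hasDerivAt_pow k s).const_mul B).add ((hasDerivAt_id s).const_mul Θ)
  have h2 : HasDerivAt (fun s : ℝ => ((2 * Real.pi * (B * s ^ k + Θ * s) : ℝ) : ℂ))
      ((2 * Real.pi * (B * (k * s ^ (k - 1)) + Θ * 1) : ℝ) : ℂ) s :=
    (h1.const_mul (2 * Real.pi)).ofReal_comp
  have h3 := (h2.mul_const Complex.I).cexp
  unfold ee
  convert h3 using 1
  push_cast
  ring

theorem cont_F (k : ℕ) (B Θ : ℝ) : Continuous (fun s : ℝ => ee (B * s ^ k + Θ * s)) :=
  continuous_ee.comp (by fun_prop)

theorem norm_VV_le_one (k : ℕ) (B Θ : ℝ) : ‖VV k B Θ‖ ≤ 1 := by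
  unfold VV
  have := intervalIntegral.norm_integral_le_of_norm_le_const (a := (0 : ℝ)) (b := 1) (C := 1)
    (f := fun s : ℝ => ee (B * s ^ k + Θ * s)) (fun x _ => (norm_ee _).le)
  simpa using this

theorem parts (k : ℕ) (B Θ : ℝ) : |Θ| * ‖VV k B Θ‖ ≤ 1 + k * |B| := by
  set F : ℝ → ℂ := fun s => ee (B * s ^ k + Θ * s) with hF
  have hFc : Continuous F := cont_F k B Θ
  set G : ℝ → ℂ := fun s => ((k * B * s ^ (k - 1) : ℝ) : ℂ) * F s with hG
  have hGc : Continuous G := by
    refine Continuous.mul ?_ hFc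
    exact Complex.continuous_ofReal.comp (by fun_prop)
  have hint : ∫ s in (0 : ℝ)..1, ((2 * Real.pi * Complex.I) * G s +
      (2 * Real.pi * Complex.I * Θ) * F s) = F 1 - F 0 := by
    refine intervalIntegral.integral_eq_sub_of_hasDerivAt (fun s _ => hasDerivAt_F k B Θ s) ?_
    exact (((continuous_const.mul hGc).add (continuous_const.mul hFc))).intervalIntegrable _ _
  have hi1 : IntervalIntegrable (fun s => (2 * Real.pi * Complex.I : ℂ) * G s) volume 0 1 :=
    (continuous_const.mul hGc).intervalIntegrable _ _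
  have hi2 : IntervalIntegrable (fun s => (2 * Real.pi * Complex.I * Θ : ℂ) * F s) volume 0 1 :=
    (continuous_const.mul hFc).intervalIntegrable _ _
  rw [intervalIntegral.integral_add hi1 hi2,
    intervalIntegral.integral_const_mul, intervalIntegral.integral_const_mul] at hint
  have hV : VV k B Θ = ∫ s in (0 : ℝ)..1, F s := rfl
  rw [← hV] at hint
  have hGn : ‖∫ s in (0 : ℝ)..1, G s‖ ≤ k * |B| := by
    have := intervalIntegral.norm_integral_le_of_norm_le_const (a := (0 : ℝ)) (b := 1)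
      (C := k * |B|) (f := G) (fun x hx => by
        rw [Set.uIoc_of_le zero_le_one] at hx
        rw [hG]
        simp only [norm_mul, hF]
        rw [norm_ee, mul_one, Complex.norm_real, Real.norm_eq_abs, abs_mul, abs_mul,
          Nat.abs_cast]
        have h1 : |x ^ (k - 1)| ≤ 1 := by
          rw [abs_pow, abs_of_pos hx.1]
          exact pow_le_one₀ hx.1.le hx.2
        have h2 : 0 ≤ (k : ℝ) * |B| := by positivity
        nlinarith)
    simpa using this
  have h2 : ‖(2 * Real.pi * Complex.I * Θ : ℂ) * VV k B Θ‖ = 2 * Real.pi * (|Θ| * ‖VV k B Θ‖) := by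
    rw [norm_mul, norm_mul, norm_mul, norm_mul, Complex.norm_I, Complex.norm_real,
      Complex.norm_real, Real.norm_eq_abs, Real.norm_eq_abs, abs_of_pos Real.pi_pos]
    simp
    ring
  have h3 : (2 * Real.pi * Complex.I * Θ : ℂ) * VV k B Θ =
      (F 1 - F 0) - (2 * Real.pi * Complex.I) * ∫ s in (0 : ℝ)..1, G s := by
    rw [← hint]
    ring
  have h4 : ‖(F 1 - F 0) - (2 * Real.pi * Complex.I) * ∫ s in (0 : ℝ)..1, G s‖ ≤
      2 + 2 * Real.pi * (k * |B|) := by
    refine (norm_sub_le _ _).trans ?_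
    refine add_le_add ?_ ?_
    · refine (norm_sub_le _ _).trans ?_
      simp only [hF]
      rw [norm_ee, norm_ee]
      norm_num
    · rw [norm_mul, norm_mul, norm_mul, Complex.norm_I, Complex.norm_real, Real.norm_eq_abs,
        abs_of_pos Real.pi_pos]
      simp only [Complex.norm_ofNat, mul_one]
      exact mul_le_mul_of_nonneg_left hGn Real.two_pi_pos.le
  rw [← h3, h2] at h4
  have hpi : 3 < Real.pi := Real.pi_gt_three
  by_contra hlt
  push_neg at hlt
  nlinarith

theorem thm : G_V2 := by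
  intro k _
  refine ⟨(k + 2) + 2 * Real.pi, fun B Θ => ⟨?_, ?_⟩⟩
  · have h1 := norm_VV_le_one k B Θ
    have h2 := parts k B Θ
    have h3 : (1 + |Θ|) * ‖VV k B Θ‖ ≤ (k + 2) * (1 + |B|) := by
      have : 0 ≤ |B| := abs_nonneg B
      have hk : (0 : ℝ) ≤ k := Nat.cast_nonneg k
      nlinarith
    have h4 : 0 < 1 + |Θ| := by positivity
    rw [← mul_div_assoc, le_div_iff₀ h4]
    have h5 : 0 ≤ 2 * Real.pi * (1 + |B|) := by positivity
    nlinarith
  · have h1 : VV k B Θ - VV k B 0 = ∫ s in (0 : ℝ)..1,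
        (ee (B * s ^ k + Θ * s) - ee (B * s ^ k + 0 * s)) := by
      unfold VV
      rw [intervalIntegral.integral_sub ((cont_F k B Θ).intervalIntegrable _ _)
        ((cont_F k B 0).intervalIntegrable _ _)]
    rw [h1]
    have h2 := intervalIntegral.norm_integral_le_of_norm_le_const (a := (0 : ℝ)) (b := 1)
      (C := 2 * Real.pi * |Θ|)
      (f := fun s : ℝ => ee (B * s ^ k + Θ * s) - ee (B * s ^ k + 0 * s)) (fun x hx => by
        rw [Set.uIoc_of_le zero_le_one] at hx
        have : ee (B * x ^ k + Θ * x) - ee (B * x ^ k + 0 * x) =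
            ee (B * x ^ k) * (ee (Θ * x) - 1) := by
          rw [ee_add, zero_mul, add_zero]
          ring
        rw [this, norm_mul, norm_ee, one_mul]
        refine (norm_ee_sub_one _).trans ?_
        rw [abs_mul, abs_of_pos hx.1]
        have : 0 ≤ 2 * Real.pi * |Θ| := by positivity
        nlinarith [hx.2])
    have h3 : (0 : ℝ) ≤ (k + 2) * |Θ| := by positivity
    simp only [sub_zero, abs_one, mul_one] at h2
    linarith

end Pool.Agent.Helper42.KS.PkV2
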