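import Pool.Agent.Helper42.KS.Goals

/-!
One coordinate exponential sums (inverse Weyl inequality).
-/

set_option autoImplicit false

namespace Pool.Agent.Helper42.KS.PkWC

open Polynomial

theorem near_neg {t δ : ℝ} (h : near (-t) δ) : near t δ := by
  obtain ⟨a, ha⟩ := h
  refine ⟨-a, ?_⟩
  have : t - ((-a : ℤ) : ℝ) = -(-t - a) := by push_cast; ring
  rw [this, abs_neg]
  exact ha

/-- the polynomial -/
noncomputable def PP (k l : ℕ) (c : Fin (l + 1) → ℝ) (α : Fin l → ℝ) : ℝ[X] :=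
  ∑ i : Fin l, C (α i) * ((X - C (c i.succ)) ^ k - (X - C (c 0)) ^ k)

theorem coeff_pow_aux (r : ℝ) (n k : ℕ) :
    ((X - C r) ^ n).coeff k = (-r) ^ (n - k) * (n.choose k : ℝ) := by
  rw [← coeff_X_add_C_pow, C_neg, sub_eq_add_neg]

theorem PP_coeff (k l : ℕ) (c : Fin (l + 1) → ℝ) (α : Fin l → ℝ) (N : ℕ) :
    (PP k l c α).coeff N = ∑ i : Fin l, α i * ((-(c i.succ)) ^ (k - N) * (k.choose N : ℝ) -
      (-(c 0)) ^ (k - N) * (k.choose N : ℝ)) := by
  unfold PP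
  rw [finsetSum_coeff]
  refine Finset.sum_congr rfl fun i _ => ?_
  rw [coeff_C_mul, coeff_sub, coeff_pow_aux, coeff_pow_aux]

theorem PP_natDegree (k l : ℕ) (hk : 1 ≤ k) (c : Fin (l + 1) → ℝ) (α : Fin l → ℝ) :
    (PP k l c α).natDegree ≤ k - 1 := by
  rw [natDegree_le_iff_coeff_eq_zero]
  intro N hN
  rw [PP_coeff]
  refine Finset.sum_eq_zero fun i _ => ?_
  have h0 : k - N = 0 := by omega
  rw [h0, pow_zero, pow_zero, sub_self, mul_zero]

theorem PP_coeff_top (k l : ℕ) (hk : 1 ≤ k) (c : Fin (l + 1) → ℝ) (α : Fin l → ℝ) :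
    (PP k l c α).coeff (k - 1) = -(k * ∑ i : Fin l, α i * (c i.succ - c 0)) := by
  rw [PP_coeff]
  have h1 : k - (k - 1) = 1 := by omega
  have h2 : (k.choose (k - 1) : ℝ) = k := by
    have : k.choose (k - 1) = k := by
      obtain ⟨m, rfl⟩ : ∃ m, k = m + 1 := ⟨k - 1, by omega⟩
      simp
    rw [this]
  rw [h1, h2, Finset.mul_sum, ← Finset.sum_neg_distrib]
  refine Finset.sum_congr rfl fun i _ => ?_
  ring

theorem PP_eval (k l : ℕ) (c : Fin (l + 1) → ℝ) (α : Fin l → ℝ) (x : ℝ) :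
    (PP k l c α).eval x = ∑ i : Fin l, α i * ((x - c i.succ) ^ k - (x - c 0) ^ k) := by
  unfold PP
  rw [eval_finsetSum]
  refine Finset.sum_congr rfl fun i _ => ?_
  simp

theorem thm : G_WEYL → G_WC := by
  intro hW k σ hk hσ hσ1
  obtain ⟨R₀, hR₀⟩ := hW (k - 1) σ (by omega) hσ hσ1
  refine ⟨R₀, fun R hR l d y α ν hle => ?_⟩
  set c : Fin (l + 1) → ℝ := fun i => ((y i ν : ℤ) : ℝ) with hc
  -- the range of summation
  obtain ⟨u, hu0, hu⟩ : ∃ u : ℤ, 0 ≤ u ∧ ∀ x : ℤ, u ≤ x ↔ (0 ≤ x ∧ ∀ i, y i ν ≤ x) := by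
    refine ⟨max 0 (Finset.univ.sup' Finset.univ_nonempty (fun i : Fin (l + 1) => y i ν)),
      le_max_left _ _, fun x => ?_⟩
    rw [max_le_iff, Finset.sup'_le_iff]
    simp
  have hset : (Finset.Ico 0 (R : ℤ)).filter (fun x => ∀ i, y i ν ≤ x) = Finset.Ico u (R : ℤ) := by
    ext x
    rw [Finset.mem_filter, Finset.mem_Ico, Finset.mem_Ico, hu]
    tauto
  have hWv : Wv k R l y α ν = ∑ x ∈ Finset.Ico u (R : ℤ), ee ((PP k l c α).eval (x : ℝ)) := by
    unfold Wv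
    rw [hset]
    refine Finset.sum_congr rfl fun x _ => ?_
    rw [PP_eval]
    congr 1
    refine Finset.sum_congr rfl fun i _ => ?_
    simp only [hc]
    push_cast
    ring
  rw [hWv] at hle
  obtain ⟨q, hq1, hq2, hq3⟩ := hR₀ R hR (PP k l c α) (PP_natDegree k l (by omega) c α) u R
    (by omega) hle
  refine ⟨q, hq1, hq2, ?_⟩
  apply near_neg
  rw [PP_coeff_top k l (by omega)] at hq3
  have hk1 : ((k - 1 : ℕ) : ℝ) = (k : ℝ) - 1 := by
    rw [Nat.cast_sub (by omega)]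
    simp
  rw [hk1] at hq3
  have heq : (q : ℝ) * -((k : ℝ) * ∑ i : Fin l, α i * (c i.succ - c 0)) =
      -((k : ℝ) * q * ∑ i : Fin l, α i * ((y i.succ ν - y 0 ν : ℤ) : ℝ)) := by
    have : ∑ i : Fin l, α i * (c i.succ - c 0) =
        ∑ i : Fin l, α i * ((y i.succ ν - y 0 ν : ℤ) : ℝ) := by
      refine Finset.sum_congr rfl fun i _ => ?_
      simp only [hc]
      push_cast
      ring
    rw [this]
    ring
  rw [heq] at hq3
  exact hq3

end Pool.Agent.Helper42.KS.PkWC
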